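import Mathlib

namespace Pool.Agent.Results.MP_50e72c_co.BurningCounterexample

/-- One application of the propagation rule to the burned set `B`. -/
def spread {n : ℕ} (E : Finset (Finset (Fin n))) (B : Finset (Fin n)) : Finset (Fin n) :=
  B ∪ Finset.univ.filter (fun v => ∃ e ∈ E, 2 ≤ e.card ∧ v ∈ e ∧ e.erase v ⊆ B)

/-- Burned set after `r` rounds when the source of round `r + 1` is `u r`. -/
def burned {n : ℕ} (E : Finset (Finset (Fin n))) (u : ℕ → Fin n) : ℕ → Finset (Fin n)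
  | 0 => ∅
  | r + 1 => insert (u r) (spread E (burned E u r))

/-- `(u 0, …, u (k-1))` is a burning sequence. -/
def IsBurningSeq {n : ℕ} (E : Finset (Finset (Fin n))) (u : ℕ → Fin n) (k : ℕ) : Prop :=
  (∀ r < k, u r ∉ burned E u r) ∧ burned E u k = Finset.univ

/-- Lazy burning set. -/
def IsLazy {n : ℕ} (E : Finset (Finset (Fin n))) (S : Finset (Fin n)) : Prop :=
  ∃ t : ℕ, (spread E)^[t] S = Finset.univ

def E0 : Finset (Finset (Fin 5)) := {{0, 1}, {0, 2, 3}, {0, 2, 4}, {3, 4}, {2, 3, 4}}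

def u0 : ℕ → Fin 5
  | 0 => 2
  | 1 => 0
  | _ => 1

theorem closed (C S : Finset (Fin 5)) (h : ∀ T ⊆ C, spread E0 T ⊆ C) (hS : S ⊆ C) (t : ℕ) :
    (spread E0)^[t] S ⊆ C := by
  induction t with
  | zero => exact hS
  | succ t ih => rw [Function.iterate_succ_apply']; exact h _ ih

theorem result : ∃ (n : ℕ) (E : Finset (Finset (Fin n))) (u : ℕ → Fin n) (k : ℕ), 0 < n ∧
    IsBurningSeq E u k ∧ (∀ u' k', IsBurningSeq E u' k' → k ≤ k') ∧
    ¬ ∃ S ⊆ (Finset.range k).image u, IsLazy E S ∧ ∀ S', IsLazy E S' → S.card ≤ S'.card := by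
  refine ⟨5, E0, u0, 3, by norm_num, ⟨by decide +kernel, by decide +kernel⟩, ?_, ?_⟩
  · rintro u k ⟨-, h⟩
    by_contra hk
    have h2 : ∀ a b : Fin 5, (∅ : Finset (Fin 5)) ≠ Finset.univ ∧
        insert a (spread E0 ∅) ≠ Finset.univ ∧
        insert b (spread E0 (insert a (spread E0 ∅))) ≠ Finset.univ := by decide +kernel
    have hk' : k = 0 ∨ k = 1 ∨ k = 2 := by omega
    rcases hk' with rfl | rfl | rfl
    · exact (h2 0 0).1 h
    · exact (h2 _ 0).2.1 h
    · exact (h2 _ _).2.2 h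
  · rintro ⟨S, hS, ⟨t, ht⟩, hmin⟩
    have h1 : S.card ≤ 1 := hmin {3} ⟨4, by decide +kernel⟩
    have h2 : ∀ S : Finset (Fin 5), S ⊆ (Finset.range 3).image u0 → S.card ≤ 1 →
        S ⊆ {0, 1} ∨ S ⊆ {2} := by decide +kernel
    rcases h2 S hS h1 with h | h
    · have := closed _ S (by decide +kernel) h t
      rw [ht] at this
      exact absurd this (by decide)
    · have := closed _ S (by decide +kernel) h t
      rw [ht] at this
      exact absurd this (by decide)

end Pool.Agent.Results.MP_50e72c_co.BurningCounterexample
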